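import Pool.Agent.helper58.FI.SpecC

/-!
# Row fi:KYH: KEY for two idempotents
-/

set_option autoImplicit false

namespace Pool.Agent.FI

open Pool.Agent.helper58.DC Pool.Agent.DI Pool.Agent.GR Pool.Agent.OB Pool.Agent.DR

section
variable {G : Type} [Group G]

/-- the permutation `z ↦ a z b⁻¹` -/
def KYH_pi (a b : G) : Equiv.Perm G where
  toFun z := a * z * b⁻¹
  invFun z := a⁻¹ * z * b
  left_inv z := by group
  right_inv z := by group

theorem KYH_pow (a b : G) (k : ℕ) (z : G) : (KYH_pi a b ^ k) z = a ^ k * z * (b ^ k)⁻¹ := by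
  induction k generalizing z with
  | zero => simp
  | succ k ih =>
    rw [pow_succ, Equiv.Perm.mul_apply, ih]
    change a ^ k * (a * z * b⁻¹) * (b ^ k)⁻¹ = a ^ (k + 1) * z * (b ^ (k + 1))⁻¹
    rw [pow_succ a, pow_succ b, mul_inv_rev]
    have h : b⁻¹ * (b ^ k)⁻¹ = b⁻¹ * (b ^ k)⁻¹ := rfl
    simp only [mul_assoc]

theorem KYH_padic {p : ℕ} {n n₀ : ℕ} (hp : p.Prime) (hn : ¬ p ∣ n₀) {y y' : G}
    (hy : y ^ p ^ n = 1) (hy' : y' ^ p ^ n = 1) (h : y ^ n₀ = y' ^ n₀) : y = y' := by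
  have hc : Nat.Coprime n₀ (p ^ n) :=
    Nat.Coprime.symm (Nat.Coprime.pow_left n ((Nat.Prime.coprime_iff_not_dvd hp).mpr hn))
  have h1 : ∀ g : G, g ^ p ^ n = 1 → (g ^ n₀) ^ (n₀.gcdA (p ^ n)) = g := by
    intro g hg
    have h2 := Nat.gcd_eq_gcd_ab n₀ (p ^ n)
    rw [hc] at h2
    have h3 : g ^ ((n₀ : ℤ) * n₀.gcdA (p ^ n) + ((p ^ n : ℕ) : ℤ) * n₀.gcdB (p ^ n)) = g := by
      rw [← h2]
      simp
    rw [zpow_add, zpow_mul, zpow_mul, zpow_natCast, zpow_natCast, hg, one_zpow, mul_one] at h3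
    exact h3
  rw [← h1 y hy, h, h1 y' hy']

/-- the matrix -/
noncomputable def KYH_E [Fintype G] (i j : G → ℂ) (z w : G) : ℂ := ∑ x : G, i x * j (w⁻¹ * x⁻¹ * z)

theorem KYH_zero [Fintype G] (H : Subgroup G) (i j : G → ℂ) (hi : ∀ x, x ∉ H → i x = 0)
    (hj : ∀ x, x ∉ H → j x = 0) (z w : G) (hz : z ∈ H) (hw : w ∉ H) : KYH_E i j z w = 0 := by
  unfold KYH_E
  refine Finset.sum_eq_zero fun x _ => ?_
  by_cases hx : x ∈ H
  · rw [hj, mul_zero]
    intro h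
    apply hw
    have h1 : w = (w⁻¹ * x⁻¹ * z * (z⁻¹ * x))⁻¹ := by group
    rw [h1]
    exact H.inv_mem (H.mul_mem h (H.mul_mem (H.inv_mem hz) hx))
  · rw [hi x hx, zero_mul]

theorem KYH_idem [Fintype G] (i j : G → ℂ) (hi : cv i i = i) (hj : cv j j = j) (z w : G) :
    ∑ u : G, KYH_E i j z u * KYH_E i j u w = KYH_E i j z w := by
  have h1 : ∀ x x' : G, ∑ u : G, j (u⁻¹ * x⁻¹ * z) * j (w⁻¹ * x'⁻¹ * u) =
      j (w⁻¹ * (x * x')⁻¹ * z) := by
    intro x x'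
    have h2 := congrFun hj (w⁻¹ * (x * x')⁻¹ * z)
    rw [cv, finsum_eq_sum_of_fintype] at h2
    rw [← h2]
    refine Finset.sum_equiv (Equiv.mulLeft (w⁻¹ * x'⁻¹)) (by simp) ?_
    intro u _
    simp only [Equiv.coe_mulLeft]
    rw [mul_comm]
    congr 1
    congr 1
    group
  have h3 : ∀ g : G, ∑ x : G, i x * i (x⁻¹ * g) = i g := by
    intro g
    have h2 := congrFun hi g
    rw [cv, finsum_eq_sum_of_fintype] at h2
    exact h2
  calc ∑ u : G, KYH_E i j z u * KYH_E i j u w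
      = ∑ u : G, ∑ x : G, ∑ x' : G, (i x * i x') * (j (u⁻¹ * x⁻¹ * z) * j (w⁻¹ * x'⁻¹ * u)) := by
        refine Finset.sum_congr rfl fun u _ => ?_
        unfold KYH_E
        rw [Finset.sum_mul_sum]
        refine Finset.sum_congr rfl fun x _ => Finset.sum_congr rfl fun x' _ => ?_
        ring
    _ = ∑ x : G, ∑ x' : G, ∑ u : G, (i x * i x') * (j (u⁻¹ * x⁻¹ * z) * j (w⁻¹ * x'⁻¹ * u)) := by
        rw [Finset.sum_comm]
        refine Finset.sum_congr rfl fun x _ => ?_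
        rw [Finset.sum_comm]
    _ = ∑ x : G, ∑ x' : G, (i x * i x') * j (w⁻¹ * (x * x')⁻¹ * z) := by
        refine Finset.sum_congr rfl fun x _ => Finset.sum_congr rfl fun x' _ => ?_
        rw [← Finset.mul_sum, h1]
    _ = ∑ x : G, ∑ g : G, (i x * i (x⁻¹ * g)) * j (w⁻¹ * g⁻¹ * z) := by
        refine Finset.sum_congr rfl fun x _ => ?_
        refine Finset.sum_equiv (Equiv.mulLeft x) (by simp) ?_
        intro x' _
        simp only [Equiv.coe_mulLeft, inv_mul_cancel_left]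
    _ = KYH_E i j z w := by
        rw [Finset.sum_comm]
        unfold KYH_E
        refine Finset.sum_congr rfl fun g _ => ?_
        rw [← Finset.sum_mul, h3]

theorem KYH_inv [Fintype G] (i j : G → ℂ) (a b : G) (hi : ∀ x, i (a * x * a⁻¹) = i x)
    (hj : ∀ x, j (b * x * b⁻¹) = j x) (z w : G) :
    KYH_E i j (a * z * b⁻¹) (a * w * b⁻¹) = KYH_E i j z w := by
  unfold KYH_E
  symm
  refine Finset.sum_equiv (MulAut.conj a).toEquiv (by simp) ?_
  intro x _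
  change i x * j (w⁻¹ * x⁻¹ * z) =
    i (a * x * a⁻¹) * j ((a * w * b⁻¹)⁻¹ * (a * x * a⁻¹)⁻¹ * (a * z * b⁻¹))
  rw [hi, ← hj (w⁻¹ * x⁻¹ * z)]
  congr 2
  group

end

theorem KYH (hKEY : KEY_stmt) : KYH_stmt := by
  intro p M hS G _ _ H i j hi0 hj0 hi1 hj1 hi2 hj2 y hy v hv y' hy' v' hv' hpy hpy' hrv hrv' hyv hyv'
    hinvi hinvj hlast r
  classical
  have : Fintype G := Fintype.ofFinite G
  have : Fintype H := Fintype.ofFinite H
  set a : H := ⟨y * v, H.mul_mem hy hv⟩ with ha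
  set b : H := ⟨y' * v', H.mul_mem hy' hv'⟩ with hb
  obtain ⟨k, hk⟩ := hpy
  obtain ⟨k', hk'⟩ := hpy'
  set n : ℕ := max k k' with hn
  have hyn : y ^ p ^ n = 1 := by
    obtain ⟨c, hc⟩ := Nat.pow_dvd_pow p (le_max_left k k')
    rw [hn, hc, pow_mul, hk, one_pow]
  have hyn' : y' ^ p ^ n = 1 := by
    obtain ⟨c, hc⟩ := Nat.pow_dvd_pow p (le_max_right k k')
    rw [hn, hc, pow_mul, hk', one_pow]
  set n₀ : ℕ := orderOf v * orderOf v' with hn₀
  have hpn : ¬ p ∣ n₀ := by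
    intro h
    rcases (hS.pr.dvd_mul).mp h with h | h
    · exact hrv h
    · exact hrv' h
  have hvn : v ^ n₀ = 1 := by rw [hn₀, pow_mul, pow_orderOf_eq_one, one_pow]
  have hvn' : v' ^ n₀ = 1 := by rw [hn₀, mul_comm, pow_mul, pow_orderOf_eq_one, one_pow]
  have han : (y * v) ^ n₀ = y ^ n₀ := by rw [hyv.mul_pow, hvn, mul_one]
  have hbn : (y' * v') ^ n₀ = y' ^ n₀ := by rw [hyv'.mul_pow, hvn', mul_one]
  have haN : (y * v) ^ (p ^ n * n₀) = 1 := by
    rw [mul_comm, pow_mul, han, ← pow_mul, mul_comm, pow_mul, hyn, one_pow]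
  have hbN : (y' * v') ^ (p ^ n * n₀) = 1 := by
    rw [mul_comm, pow_mul, hbn, ← pow_mul, mul_comm, pow_mul, hyn', one_pow]
  have hfix : ∀ z : H, (KYH_pi a b ^ n₀) z = z → (z : G)⁻¹ * y * z = y' := by
    intro z hz
    rw [KYH_pow] at hz
    have h1 : (a : G) ^ n₀ * z * ((b : G) ^ n₀)⁻¹ = z := by
      have := congrArg (fun x : H => (x : G)) hz
      simpa using this
    have h2 : (a : G) ^ n₀ = y ^ n₀ := han
    have h3 : (b : G) ^ n₀ = y' ^ n₀ := hbn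
    rw [h2, h3] at h1
    have h4 : ((z : G)⁻¹ * y * z) ^ n₀ = y' ^ n₀ := by
      have h5 : ((z : G)⁻¹ * y * z) ^ n₀ = (z : G)⁻¹ * y ^ n₀ * z := by
        have := conj_pow (a := (z : G)⁻¹) (b := y) (i := n₀)
        rw [inv_inv] at this
        exact this
      rw [h5]
      have h6 : y ^ n₀ * (z : G) = z * y' ^ n₀ := by
        calc y ^ n₀ * (z : G) = y ^ n₀ * z * (y' ^ n₀)⁻¹ * y' ^ n₀ := by group
          _ = z * y' ^ n₀ := by rw [h1]
      rw [mul_assoc, h6, inv_mul_cancel_left]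
    refine KYH_padic hS.pr hpn ?_ hyn' h4
    have h5 : ((z : G)⁻¹ * y * z) ^ p ^ n = (z : G)⁻¹ * y ^ p ^ n * z := by
      have := conj_pow (a := (z : G)⁻¹) (b := y) (i := p ^ n)
      rw [inv_inv] at this
      exact this
    rw [h5, hyn]
    group
  have key := hKEY p M hS H (fun z w => KYH_E i j z w) (KYH_pi a b) n n₀ hpn ?_ ?_ ?_ ?_ ?_ r
  · have h9 : ∑ᶠ z ∈ (H : Set G), ∑ᶠ x, i x * j ((y' * v') * z⁻¹ * (y * v)⁻¹ * x⁻¹ * z) =
        ∑ z : H, KYH_E i j z (KYH_pi a b z : H) := by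
      rw [← finsum_set_coe_eq_finsum_mem]
      refine Eq.trans (finsum_eq_sum_of_fintype (α := H)
        (fun z : H => ∑ᶠ x, i x * j ((y' * v') * (z : G)⁻¹ * (y * v)⁻¹ * x⁻¹ * z))) ?_
      refine Finset.sum_congr rfl fun z _ => ?_
      rw [finsum_eq_sum_of_fintype]
      unfold KYH_E
      refine Finset.sum_congr rfl fun x _ => ?_
      change _ = i x * j (((y * v) * z * (y' * v')⁻¹)⁻¹ * x⁻¹ * z)
      congr 2
      group
    rw [h9]
    exact key
  · ext z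
    rw [KYH_pow]
    simp only [Subgroup.coe_mul, Subgroup.coe_inv, Subgroup.coe_pow, Equiv.Perm.coe_one, id_eq]
    have h2 : (a : G) ^ (p ^ n * n₀) = 1 := haN
    have h3 : (b : G) ^ (p ^ n * n₀) = 1 := hbN
    rw [h2, h3]
    simp
  · intro z w
    exact IntAt.sum hS _ fun x _ => (hi1 _).mul hS (hj1 _)
  · intro z w
    rw [← KYH_idem i j hi2 hj2 (z : G) (w : G)]
    symm
    apply Eq.symm
    apply Finset.sum_of_injOn (fun x : H => (x : G))
    · intro x _ x' _ h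
      exact Subtype.ext h
    · intro x _
      exact Finset.mem_univ _
    · intro x _ hx
      have hxH : x ∉ H := fun h => hx ⟨⟨x, h⟩, by simp, rfl⟩
      rw [KYH_zero H i j hi0 hj0 z x z.2 hxH, zero_mul]
    · intro x _
      rfl
  · intro z w
    change KYH_E i j ((y * v) * z * (y' * v')⁻¹) ((y * v) * w * (y' * v')⁻¹) = KYH_E i j z w
    exact KYH_inv i j _ _ hinvi hinvj z w
  · intro z w hz hw
    have h1 := hlast z z.2 w w.2 (hfix z hz) (hfix w hw)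
    rw [finsum_eq_sum_of_fintype] at h1
    exact h1

end Pool.Agent.FI
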